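import Pool.Agent.Work.MP_e9e200_al.Bd.B33
import Pool.Agent.Work.MP_e9e200_al.Bd.B23
import Pool.Agent.Work.MP_e9e200_al.Bd.B31
import Pool.Agent.Work.MP_e9e200_al.Bd.B35
import Pool.Agent.Work.MP_e9e200_al.Bd.B34
import Pool.Agent.Work.MP_e9e200_al.Bd.B25

/-!
# Project UP: assembly of all items
-/

set_option autoImplicit false

namespace Pool.Agent.Work.MP_e9e200_al.UP

theorem A_D4 : StD4 := I_D4 I_D2 I_D3
theorem A_D : StD := I_D A_D4 I_D5 I_D6 I_D7 I_D8 I_D9 I_D10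
theorem A_C1 : StC1 := I_C1 I_GN
theorem A_C4 : StC4 := I_C4 A_C1 I_C3
theorem A_T2 : StT2 := I_T2 I_T1
theorem A_T3 : StT3 := I_T3 A_T2
theorem A_FR : StFR := I_FR I_GN
theorem A_KS3 : StKS3 := I_KS3 I_KS1
theorem A_E1 : StE1 := I_E1 I_D3 I_KS1
theorem A_E4 : StE4 := I_E4 I_KS2 A_KS3
theorem A_E5 : StE5 := I_E5 I_FH I_KS2 A_KS3
theorem A_E7 : StE7 := I_E7 A_KS3
theorem A_F2 : StF2 := I_F2 I_Unsh I_F0 I_F1
theorem A_F3 : StF3 := I_F3 I_Unsh I_F1 A_F2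
theorem A_F4 : StF4 := I_F4 I_F0 A_F2
theorem A_F5 : StF5 := I_F5 I_Unsh I_F0 A_F3
theorem A_F6 : StF6 := I_F6 I_F0 I_F1 A_F3
theorem A_F7 : StF7 := I_F7 A_F4 A_F5 A_F6 I_KS2 A_KS3
theorem A_G2 : StG2 := I_G2 I_G1
theorem A_G3 : StG3 := I_G3 I_F0 I_F1
theorem A_A3 : StA3 := I_A3 I_A2
theorem A_A9 : StA9 := I_A9 I_A2
theorem A_A10 : StA10 := I_A10 A_A3 I_A4
theorem A_A11 : StA11 := I_A11 I_A8
theorem A_A12 : StA12 := I_A12 I_A1 I_A5 I_A6 I_A7 I_A8 A_A9 A_A10 A_A11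
theorem A_H1 : StH1 := I_H1 I_NC
theorem A_H4 : StH4 := I_H4 A_C4 I_C5 A_D A_E1 I_H2
theorem A_H3 : StH3 := I_H3 A_FR A_T3 I_E3 A_E4 A_E5 I_E6 A_E7 A_F7
theorem A_U : StU := I_U A_A12 A_H1 I_H2 A_H3 A_H4 I_FG A_G2 LC.I_MOD LC.I_RES
theorem A_UP : StUP := I_UP A_U A_G3 (fun G _ _ hG χ h => (nfr_iff G hG χ).1 h)

/-- Theorem U in the form of modules: if no nontrivial combination of at most `m` characters of the
complement of `Σ^1` is a nonnegative multiple of `v` then the trivial module is of type `FP_m`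
over the monoid ring of `G_v` -/
theorem u_fp (m : ℕ) (G : Type) [Group G] [Group.FG G] (hG : Metab G) (v : Additive G →+ ℝ)
    (h : ∀ γ : Fin m → (Additive G →+ ℝ), (∀ j, γ j ∈ SigC G 1) → ∀ (a : Fin m → ℝ) (b : ℝ),
      (∀ j, 0 ≤ a j) → (∃ j, a j ≠ 0) → 0 ≤ b → ∑ j, a j • γ j ≠ b • v) :
    IsFP (MonoidAlgebra ℤ (Gmon v)) (Triv (Gmon v)) m := by
  obtain ⟨B, hB, deg, db, eb, hP⟩ := A_U m G hG v
    (fun γ hγ => h γ (fun j => (nfr_iff G hG (γ j)).1 (hγ j)))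
  exact A_G3 G (Gmon v) m B deg db eb hP

/-- The homological part of the conjecture of Bieri: the equality
`Σ^m(G, ℤ)^c = conv_{≤m} (Σ^1(G, ℤ)^c)` -/
theorem sigma_eq (m : ℕ) (hm : 1 ≤ m) (G : Type) [Group G] [Group.FG G] (hG : Metab G)
    (hfp : GroupFP G m) : SigC G m = ConvLE G m (SigC G 1) :=
  Set.Subset.antisymm (A_UP m G hm hG (LZ.tame m G hG hfp)) (LC.A_LOW m G hm hG)

/-- The conjecture on metabelian groups of type `FP_m` -/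
theorem fp_iff_tame (m : ℕ) (G : Type) [Group G] [Group.FG G] (hG : Metab G) :
    GroupFP G m ↔ ∀ γ : Fin m → (Additive G →+ ℝ), (∀ j, γ j ∈ SigC G 1) → ∀ a : Fin m → ℝ,
      (∀ j, 0 ≤ a j) → (∃ j, a j ≠ 0) → ∑ j, a j • γ j ≠ 0 := by
  constructor
  · exact fun h => LZ.tame m G hG h
  · intro h
    have h1 := u_fp m G hG 0 (fun γ hγ a b ha hne hb => by
      rw [smul_zero]; exact h γ hγ a ha hne)
    exact (groupFP_iff_full G (Gmon (0 : Additive G →+ ℝ)) (fun g => le_refl (0 : ℝ)) m).2 h1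

end Pool.Agent.Work.MP_e9e200_al.UP
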